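import Pool.Agent.H48.O4.St

/-!
# Semantics of states in the exterior algebra of the polynomials
-/

set_option autoImplicit false

open Polynomial

namespace Pool.Agent.H48.O4

abbrev Ex := ExteriorAlgebra ℝ ℝ[X]

/-- product of the vectors `v a` over a list of codes -/
noncomputable def W (v : ℕ → ℝ[X]) : List ℕ → Ex
  | [] => 1
  | a :: l => ExteriorAlgebra.ι ℝ (v a) * W v l

/-- value of a state -/
noncomputable def S (p u : ℝ) (v : ℕ → ℝ[X]) : St → Ex
  | [] => 0
  | e :: σ => ev2 p u e.2.2 • W v e.2.1 + S p u v σ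

theorem leq_eq : ∀ l m : List ℕ, leq l m = true → l = m
  | [], [], _ => rfl
  | [], _ :: _, h => by simp [leq] at h
  | _ :: _, [], h => by simp [leq] at h
  | a :: l, b :: m, h => by
    simp only [leq, Bool.and_eq_true] at h
    rw [Nat.eq_of_beq_eq_true h.1, leq_eq l m h.2]

section

variable (p u : ℝ) (v : ℕ → ℝ[X])

theorem S_addT (k : ℕ) (l : List ℕ) (c : Cf) :
    ∀ σ : St, S p u v (addT k l c σ) = ev2 p u c • W v l + S p u v σ
  | [] => by simp [addT, S]
  | e :: σ => by
    unfold addT
    cases h1 : Nat.blt k e.1 with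
    | true => simp [S]
    | false =>
      cases h2 : (Nat.beq k e.1 && leq l e.2.1) with
      | true =>
        simp only [Bool.and_eq_true] at h2
        have hl := leq_eq _ _ h2.2
        simp only [cond_false, cond_true, S, ev2_add, hl, add_smul]
        abel
      | false =>
        simp only [cond_false, S, S_addT k l c σ]
        abel

theorem ι_sq (x : ℝ[X]) : ExteriorAlgebra.ι ℝ x * ExteriorAlgebra.ι ℝ x = 0 :=
  ExteriorAlgebra.ι_sq_zero x

theorem ι_anti (x y : ℝ[X]) : ExteriorAlgebra.ι ℝ x * ExteriorAlgebra.ι ℝ y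
    = - (ExteriorAlgebra.ι ℝ y * ExteriorAlgebra.ι ℝ x) := by
  have h := ι_sq (x + y)
  rw [map_add, add_mul, mul_add, mul_add, ι_sq, ι_sq, zero_add, add_zero] at h
  exact eq_neg_of_add_eq_zero_left h

/-- sign -/
def sg (b : Bool) : ℝ := if b then -1 else 1

theorem sg_not (b : Bool) : sg (!b) = - sg b := by cases b <;> simp [sg]

theorem sg_xor (a b : Bool) : sg (xor a b) = sg a * sg b := by cases a <;> cases b <;> simp [sg]

theorem W_ins (a : ℕ) : ∀ l : List ℕ, W v (a :: l) = (match ins a l with
    | none => 0
    | some (s, l') => sg s • W v l')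
  | [] => by simp [ins, sg]
  | b :: l => by
    unfold ins
    cases h1 : Nat.blt a b with
    | true => simp [sg]
    | false =>
      cases h2 : Nat.beq a b with
      | true =>
        have : a = b := Nat.eq_of_beq_eq_true h2
        subst this
        simp only [cond_false, cond_true, W]
        rw [← mul_assoc, ι_sq, zero_mul]
      | false =>
        have ih := W_ins a l
        simp only [cond_false]
        have e : W v (a :: b :: l) = - (ExteriorAlgebra.ι ℝ (v b) * W v (a :: l)) := by
          simp only [W]
          rw [← mul_assoc, ι_anti, neg_mul, mul_assoc]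
        rw [e, ih]
        cases hi : ins a l with
        | none => simp
        | some x =>
          obtain ⟨s, l'⟩ := x
          simp only [W, sg_not, mul_smul_comm, neg_smul]

theorem W_srt : ∀ l : List ℕ, W v l = (match srt l with
    | none => 0
    | some (s, l') => sg s • W v l')
  | [] => by simp [srt, sg]
  | a :: l => by
    have ih := W_srt l
    unfold srt
    cases hs : srt l with
    | none =>
      rw [hs] at ih
      simp only at ih
      simp [W, ih]
    | some x =>
      obtain ⟨s, l'⟩ := x
      rw [hs] at ih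
      simp only at ih
      have h2 := W_ins v a l'
      have e : W v (a :: l) = sg s • W v (a :: l') := by
        simp only [W]; rw [ih, mul_smul_comm]
      rw [e, h2]
      cases hi : ins a l' with
      | none => simp [hi]
      | some y =>
        obtain ⟨s', l''⟩ := y
        simp only [hi, sg_xor, smul_smul]

theorem S_addS (l : List ℕ) (c : Cf) (σ : St) :
    S p u v (addS l c σ) = ev2 p u c • W v l + S p u v σ := by
  have h := W_srt v l
  unfold addS
  cases hs : srt l with
  | none =>
    rw [hs] at h
    simp only at h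
    simp [h]
  | some x =>
    obtain ⟨s, l'⟩ := x
    rw [hs] at h
    simp only at h
    simp only [S_addT, h]
    cases s with
    | true =>
      simp only [cond_true, ev2_sc, sg, if_true, smul_smul]
      push_cast
      congr 2; ring
    | false => simp [sg]

theorem S_subS (σ : St) : ∀ τ : St, S p u v (subS σ τ) = S p u v σ - S p u v τ
  | [] => by simp [subS, S]
  | e :: τ => by
    simp only [subS, S_addT, S, S_subS σ τ, ev2_sc]
    push_cast
    rw [neg_one_mul, neg_smul]
    abel

theorem S_zst : ∀ σ : St, zst σ = true → S p u v σ = 0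
  | [], _ => by simp [S]
  | e :: σ, h => by
    simp only [zst, Bool.and_eq_true] at h
    simp [S, ev2_z p u _ h.1, S_zst σ h.2]

/-- value of a list of choices -/
noncomputable def sm (y : ℝ) : List (List ℕ × ℕ × ℕ) → Ex
  | [] => 0
  | x :: L => (y ^ x.2.1 * (1 + y) ^ x.2.2) • W v x.1 + sm y L

theorem sm_st2 (y : ℝ) (a : ℕ) : ∀ L, sm v y (st2 a L)
    = ExteriorAlgebra.ι ℝ (v a + y • v (a + 8)) * sm v y L
  | [] => by simp [st2, sm]
  | x :: L => by
    simp only [st2, sm, sm_st2 y a L, W, map_add, map_smul, add_mul, mul_add, smul_mul_assoc,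
      mul_smul_comm, pow_succ]
    module

theorem sm_st1 (y : ℝ) (a : ℕ) : ∀ L, sm v y (st1 a L)
    = ExteriorAlgebra.ι ℝ (v (a - 1)) * sm v y L
  | [] => by simp [st1, sm]
  | x :: L => by
    simp only [st1, sm, sm_st1 y a L, W, mul_add, mul_smul_comm]

theorem sm_st3 (y : ℝ) (a : ℕ) : ∀ L, sm v y (st3 a L)
    = ExteriorAlgebra.ι ℝ (v a + y • v (a + 8) + (1 + y) • v (a - 1)) * sm v y L
  | [] => by simp [st3, sm]
  | x :: L => by
    simp only [st3, sm, sm_st3 y a L, W, map_add, map_smul, add_mul, mul_add, smul_mul_assoc,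
      mul_smul_comm, pow_succ]
    module

theorem sm_append (y : ℝ) : ∀ L L', sm v y (L ++ L') = sm v y L + sm v y L'
  | [], L' => by simp [sm]
  | x :: L, L' => by
    simp only [List.cons_append, sm, sm_append y L L', add_assoc]

end

/-- the vectors after adding the form `y` -/
def Step (y : ℝ) (v v' : ℕ → ℝ[X]) : Prop :=
  ∀ a, v' a = v a + y • v (a + 8) + (if a % 8 = 0 then 0 else (1 + y) • v (a - 1))

def Stay (y : ℝ) (v v' : ℕ → ℝ[X]) : Prop :=
  ∀ a, v' a = v a + y • v (a + 8)

theorem W_all {y : ℝ} {v v' : ℕ → ℝ[X]} (h : Step y v v') :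
    ∀ l : List ℕ, W v' l = sm v y (allc l)
  | [] => by simp [allc, sm, W]
  | a :: l => by
    unfold allc
    cases h1 : Nat.beq (a % 8) 0 with
    | true =>
      have h2 : a % 8 = 0 := Nat.eq_of_beq_eq_true h1
      rw [cond_true, sm_st2, W, W_all h l, h a, if_pos h2, add_zero]
    | false =>
      have h2 : a % 8 ≠ 0 := Nat.ne_of_beq_eq_false h1
      rw [cond_false, sm_st3, W, W_all h l, h a, if_neg h2]

theorem W_pos {y : ℝ} {v v' w : ℕ → ℝ[X]} (h : Step y v v') (hw : Stay y v w) :
    ∀ l : List ℕ, W v' l = W w l + (1 + y) • sm v y (pos l)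
  | [] => by simp [pos, sm, W]
  | a :: l => by
    have ih := W_pos h hw l
    unfold pos
    cases h1 : Nat.beq (a % 8) 0 with
    | true =>
      have h2 : a % 8 = 0 := Nat.eq_of_beq_eq_true h1
      rw [cond_true, sm_st2, W, W, ih, h a, if_pos h2, add_zero, ← hw a, mul_add, mul_smul_comm]
    | false =>
      have h2 : a % 8 ≠ 0 := Nat.ne_of_beq_eq_false h1
      rw [cond_false, sm_append, sm_st1, sm_st2, W, W, h a, if_neg h2, ← hw a, map_add, add_mul,
        map_smul, smul_mul_assoc, W_all h l, ← W_all h l, ih, mul_add, mul_smul_comm, ← ih,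
        W_all h l]
      module

end Pool.Agent.H48.O4
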