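import Mathlib

/-!
# Polynomials in two parameters with integer coefficients, as lists
-/

set_option autoImplicit false

namespace Pool.Agent.H48.O4

/-- Coefficient polynomials: list over powers of `p` of lists over powers of `u`. -/
abbrev Cf := List (List ℤ)

def add1 : List ℤ → List ℤ → List ℤ
  | [], m => m
  | a :: l, m => match m with
    | [] => a :: l
    | b :: m' => (a + b) :: add1 l m'

def add2 : Cf → Cf → Cf
  | [], m => m
  | a :: l, m => match m with
    | [] => a :: l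
    | b :: m' => add1 a b :: add2 l m'

def sc1 (z : ℤ) : List ℤ → List ℤ
  | [] => []
  | a :: l => (z * a) :: sc1 z l

def sc2 (z : ℤ) : Cf → Cf
  | [] => []
  | a :: l => sc1 z a :: sc2 z l

def mul1 : List ℤ → List ℤ → List ℤ
  | [], _ => []
  | a :: l, m => add1 (sc1 a m) (0 :: mul1 l m)

def mulr (a : List ℤ) : Cf → Cf
  | [] => []
  | b :: m => mul1 a b :: mulr a m

def mul2 : Cf → Cf → Cf
  | [], _ => []
  | a :: l, m => add2 (mulr a m) ([] :: mul2 l m)

def nn1 : List ℤ → Bool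
  | [] => true
  | a :: l => (match a with
    | Int.ofNat _ => true
    | Int.negSucc _ => false) && nn1 l

def nn2 : Cf → Bool
  | [] => true
  | a :: l => nn1 a && nn2 l

def z1 : List ℤ → Bool
  | [] => true
  | a :: l => (match a with
    | Int.ofNat n => Nat.beq n 0
    | Int.negSucc _ => false) && z1 l

def z2 : Cf → Bool
  | [] => true
  | a :: l => z1 a && z2 l

noncomputable def ev1 (u : ℝ) : List ℤ → ℝ
  | [] => 0
  | c :: l => (c : ℝ) + u * ev1 u l

noncomputable def ev2 (p u : ℝ) : Cf → ℝ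
  | [] => 0
  | c :: l => ev1 u c + p * ev2 p u l

theorem ev1_add (u : ℝ) : ∀ l m : List ℤ, ev1 u (add1 l m) = ev1 u l + ev1 u m
  | [], m => by simp [add1, ev1]
  | a :: l, [] => by simp [add1, ev1]
  | a :: l, b :: m => by
    simp only [add1, ev1, ev1_add u l m]; push_cast; ring

theorem ev2_add (p u : ℝ) : ∀ l m : Cf, ev2 p u (add2 l m) = ev2 p u l + ev2 p u m
  | [], m => by simp [add2, ev2]
  | a :: l, [] => by simp [add2, ev2]
  | a :: l, b :: m => by
    simp only [add2, ev2, ev2_add p u l m, ev1_add]; ring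

theorem ev1_sc (u : ℝ) (z : ℤ) : ∀ l : List ℤ, ev1 u (sc1 z l) = (z : ℝ) * ev1 u l
  | [] => by simp [sc1, ev1]
  | a :: l => by simp only [sc1, ev1, ev1_sc u z l]; push_cast; ring

theorem ev2_sc (p u : ℝ) (z : ℤ) : ∀ l : Cf, ev2 p u (sc2 z l) = (z : ℝ) * ev2 p u l
  | [] => by simp [sc2, ev2]
  | a :: l => by simp only [sc2, ev2, ev1_sc, ev2_sc p u z l]; ring

theorem ev1_mul (u : ℝ) : ∀ l m : List ℤ, ev1 u (mul1 l m) = ev1 u l * ev1 u m
  | [], m => by simp [mul1, ev1]
  | a :: l, m => by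
    simp only [mul1, ev1_add, ev1_sc, ev1, ev1_mul u l m]; push_cast; ring

theorem ev2_mulr (p u : ℝ) (a : List ℤ) : ∀ m : Cf, ev2 p u (mulr a m) = ev1 u a * ev2 p u m
  | [] => by simp [mulr, ev2]
  | b :: m => by simp only [mulr, ev2, ev1_mul, ev2_mulr p u a m]; ring

theorem ev2_mul (p u : ℝ) : ∀ l m : Cf, ev2 p u (mul2 l m) = ev2 p u l * ev2 p u m
  | [], m => by simp [mul2, ev2]
  | a :: l, m => by
    simp only [mul2, ev2_add, ev2_mulr, ev2, ev2_mul p u l m, ev1]; ring

theorem ev1_nn {u : ℝ} (hu : 0 ≤ u) : ∀ l : List ℤ, nn1 l = true → 0 ≤ ev1 u l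
  | [], _ => by simp [ev1]
  | Int.ofNat a :: l, h => by
    simp only [nn1, Bool.true_and] at h
    have := ev1_nn hu l h
    simp only [ev1]
    have h2 : (0 : ℝ) ≤ ((Int.ofNat a : ℤ) : ℝ) := by
      have : (0 : ℤ) ≤ Int.ofNat a := Int.natCast_nonneg a
      exact_mod_cast this
    positivity
  | Int.negSucc a :: l, h => by simp [nn1] at h

theorem ev2_nn {p u : ℝ} (hp : 0 ≤ p) (hu : 0 ≤ u) : ∀ l : Cf, nn2 l = true → 0 ≤ ev2 p u l
  | [], _ => by simp [ev2]
  | a :: l, h => by
    simp only [nn2, Bool.and_eq_true] at h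
    have := ev2_nn hp hu l h.2
    have := ev1_nn hu a h.1
    simp only [ev2]
    positivity

theorem ev1_z (u : ℝ) : ∀ l : List ℤ, z1 l = true → ev1 u l = 0
  | [], _ => by simp [ev1]
  | Int.ofNat a :: l, h => by
    simp only [z1, Bool.and_eq_true] at h
    have h1 : a = 0 := Nat.eq_of_beq_eq_true h.1
    subst h1
    simp [ev1, ev1_z u l h.2]
  | Int.negSucc a :: l, h => by simp [z1] at h

theorem ev2_z (p u : ℝ) : ∀ l : Cf, z2 l = true → ev2 p u l = 0
  | [], _ => by simp [ev2]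
  | a :: l, h => by
    simp only [z2, Bool.and_eq_true] at h
    simp [ev2, ev1_z u a h.1, ev2_z p u l h.2]

end Pool.Agent.H48.O4
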