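import Pool.Agent.H48.O4.Alg

/-!
# Adding a form: the operators `X_m`
-/

set_option autoImplicit false

open Polynomial

namespace Pool.Agent.H48.O4

/-- selection coefficient -/
def cc (m : ℕ) (x : List ℕ × ℕ × ℕ) : ℕ :=
  if x.2.1 ≤ m ∧ m ≤ x.2.1 + x.2.2 then Nat.choose x.2.2 (m - x.2.1) else 0

noncomputable def smc (v : ℕ → ℝ[X]) (m : ℕ) : List (List ℕ × ℕ × ℕ) → Ex
  | [] => 0
  | x :: L => (cc m x : ℝ) • W v x.1 + smc v m L

theorem S_xt (p u : ℝ) (v : ℕ → ℝ[X]) (m : ℕ) (c : Cf) :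
    ∀ (L : List (List ℕ × ℕ × ℕ)) (σ : St),
      S p u v (xt m c L σ) = ev2 p u c • smc v m L + S p u v σ
  | [], σ => by simp [xt, smc]
  | x :: L, σ => by
    unfold xt
    cases h : (Nat.ble x.2.1 m && Nat.ble m (x.2.1 + x.2.2)) with
    | true =>
      have h' := h
      simp only [Bool.and_eq_true, Nat.ble_eq] at h'
      have e : cc m x = Nat.choose x.2.2 (m - x.2.1) := by simp [cc, h']
      rw [cond_true, S_addS, S_xt p u v m c L σ, smc, e, ev2_sc, smul_add, smul_smul]
      have : ((Int.ofNat (Nat.choose x.2.2 (m - x.2.1)) : ℤ) : ℝ)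
          = ((Nat.choose x.2.2 (m - x.2.1) : ℕ) : ℝ) := by simp
      rw [this, mul_comm (ev2 p u c), add_assoc]
    | false =>
      have h' : ¬ (x.2.1 ≤ m ∧ m ≤ x.2.1 + x.2.2) := by
        intro h2
        rw [← Nat.ble_eq, ← Nat.ble_eq (x := m), ← Bool.and_eq_true] at h2
        rw [h] at h2
        exact Bool.noConfusion h2
      have e : cc m x = 0 := by simp only [cc, if_neg h']
      rw [cond_false, S_xt p u v m c L σ, smc, e]
      simp

/-- value of the image under `X_m` of each tuple -/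
noncomputable def Sc (p u : ℝ) (v : ℕ → ℝ[X]) (m : ℕ) : St → Ex
  | [] => 0
  | e :: σ => ev2 p u e.2.2 • smc v m (pos e.2.1) + Sc p u v m σ

theorem S_opX (p u : ℝ) (v : ℕ → ℝ[X]) (m : ℕ) : ∀ σ : St,
    S p u v (opX m σ) = Sc p u v m σ
  | [] => by simp [opX, S, Sc]
  | e :: σ => by rw [opX, S_xt, S_opX p u v m σ, Sc]

theorem cc_sum (y : ℝ) (x : List ℕ × ℕ × ℕ) (hx : x.2.1 + x.2.2 < 4) :
    y ^ x.2.1 * (1 + y) ^ x.2.2 = ∑ m ∈ Finset.range 4, y ^ m * (cc m x : ℝ) := by
  obtain ⟨l, i, j⟩ := x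
  simp only at hx
  simp only [cc, Finset.sum_range_succ, Finset.sum_range_zero]
  have hi : i < 4 := by omega
  have hj : j < 4 := by omega
  interval_cases i <;> interval_cases j <;> first | omega | (norm_num [Nat.choose]; try ring)

theorem sm_smc (v : ℕ → ℝ[X]) (y : ℝ) : ∀ L : List (List ℕ × ℕ × ℕ),
    (∀ x ∈ L, x.2.1 + x.2.2 < 4) →
    sm v y L = ∑ m ∈ Finset.range 4, y ^ m • smc v m L
  | [], _ => by simp [sm, smc]
  | x :: L, h => by
    rw [sm, sm_smc v y L (fun z hz => h z (List.mem_cons_of_mem _ hz)),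
      cc_sum y x (h x List.mem_cons_self), Finset.sum_smul, ← Finset.sum_add_distrib]
    refine Finset.sum_congr rfl fun m _ => ?_
    rw [smc, smul_add, smul_smul]

theorem mem_st2 (a : ℕ) : ∀ L x, x ∈ st2 a L → ∃ z ∈ L, x.2.1 ≤ z.2.1 + 1 ∧ x.2.1 + x.2.2 ≤
    z.2.1 + z.2.2 + 1
  | [], x, h => by simp [st2] at h
  | z :: L, x, h => by
    simp only [st2, List.mem_cons] at h
    rcases h with h | h | h
    · exact ⟨z, List.mem_cons_self, by subst h; simp, by subst h; simp⟩
    · exact ⟨z, List.mem_cons_self, by subst h; simp, by subst h; simp; omega⟩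
    · obtain ⟨w, hw, h1, h2⟩ := mem_st2 a L x h
      exact ⟨w, List.mem_cons_of_mem _ hw, h1, h2⟩

theorem mem_st1 (a : ℕ) : ∀ L x, x ∈ st1 a L → ∃ z ∈ L, x.2.1 + x.2.2 = z.2.1 + z.2.2
  | [], x, h => by simp [st1] at h
  | z :: L, x, h => by
    simp only [st1, List.mem_cons] at h
    rcases h with h | h
    · exact ⟨z, List.mem_cons_self, by subst h; simp⟩
    · obtain ⟨w, hw, h1⟩ := mem_st1 a L x h
      exact ⟨w, List.mem_cons_of_mem _ hw, h1⟩

theorem mem_st3 (a : ℕ) : ∀ L x, x ∈ st3 a L → ∃ z ∈ L, x.2.1 + x.2.2 ≤ z.2.1 + z.2.2 + 1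
  | [], x, h => by simp [st3] at h
  | z :: L, x, h => by
    simp only [st3, List.mem_cons] at h
    rcases h with h | h | h | h
    · exact ⟨z, List.mem_cons_self, by subst h; simp⟩
    · exact ⟨z, List.mem_cons_self, by subst h; simp; omega⟩
    · exact ⟨z, List.mem_cons_self, by subst h; simp; omega⟩
    · obtain ⟨w, hw, h1⟩ := mem_st3 a L x h
      exact ⟨w, List.mem_cons_of_mem _ hw, h1⟩

theorem allc_le : ∀ (l : List ℕ) (x), x ∈ allc l → x.2.1 + x.2.2 ≤ l.length
  | [], x, h => by simp [allc] at h; subst h; simp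
  | a :: l, x, h => by
    unfold allc at h
    cases h1 : Nat.beq (a % 8) 0 with
    | true =>
      rw [h1, cond_true] at h
      obtain ⟨z, hz, _, h2⟩ := mem_st2 a _ x h
      have := allc_le l z hz
      simp only [List.length_cons]; omega
    | false =>
      rw [h1, cond_false] at h
      obtain ⟨z, hz, h2⟩ := mem_st3 a _ x h
      have := allc_le l z hz
      simp only [List.length_cons]; omega

theorem pos_lt : ∀ (l : List ℕ) (x), x ∈ pos l → x.2.1 + x.2.2 < l.length
  | [], x, h => by simp [pos] at h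
  | a :: l, x, h => by
    unfold pos at h
    cases h1 : Nat.beq (a % 8) 0 with
    | true =>
      rw [h1, cond_true] at h
      obtain ⟨z, hz, _, h2⟩ := mem_st2 a _ x h
      have := pos_lt l z hz
      simp only [List.length_cons]; omega
    | false =>
      rw [h1, cond_false, List.mem_append] at h
      rcases h with h | h
      · obtain ⟨z, hz, h2⟩ := mem_st1 a _ x h
        have := allc_le l z hz
        simp only [List.length_cons]; omega
      · obtain ⟨z, hz, _, h2⟩ := mem_st2 a _ x h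
        have := pos_lt l z hz
        simp only [List.length_cons]; omega

/-- all tuples of length at most four -/
def len4 : St → Bool
  | [] => true
  | e :: σ => Nat.ble e.2.1.length 4 && len4 σ

theorem S_step (p u : ℝ) {y : ℝ} {v v' w : ℕ → ℝ[X]} (h : Step y v v') (hw : Stay y v w) :
    ∀ σ : St, len4 σ = true →
      S p u v' σ = S p u w σ + (1 + y) • ∑ m ∈ Finset.range 4, y ^ m • S p u v (opX m σ)
  | [], _ => by simp [S, opX]
  | e :: σ, hl => by
    simp only [len4, Bool.and_eq_true, Nat.ble_eq] at hl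
    have ih := S_step p u h hw σ hl.2
    simp only [S_opX] at ih
    simp only [S_opX, Sc, smul_add, Finset.sum_add_distrib]
    rw [S, S, ih, W_pos h hw, sm_smc v y (pos e.2.1)
      (fun x hx => lt_of_lt_of_le (pos_lt _ x hx) hl.1)]
    have e1 : ∑ m ∈ Finset.range 4, y ^ m • ev2 p u e.2.2 • smc v m (pos e.2.1)
        = ev2 p u e.2.2 • ∑ m ∈ Finset.range 4, y ^ m • smc v m (pos e.2.1) := by
      rw [Finset.smul_sum]
      refine Finset.sum_congr rfl fun m _ => ?_
      rw [smul_comm]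
    rw [e1]
    module

end Pool.Agent.H48.O4
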