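import Pool.Agent.H48.O4.Op
import Pool.Agent.H52.O4.Spec

/-!
# The window of rows as a state, and the coefficient determinants as a functional
-/

set_option autoImplicit false

open Polynomial

namespace Pool.Agent.H48.O4

open Pool.Agent.H73.TP (opA opA_add opA_C_mul)
open Pool.Agent.H52.O4 (gp fk rw0 rwi sol)

/-! ### the rows -/

theorem fk_der (F : List ℝ) : ∀ k : ℕ, (X - X ^ 2) * derivative (fk F k)
    = - (C ((F.length : ℝ) - k) * (X * fk F k)) + C ((k : ℝ) + 1) * (X * fk F (k + 1)) := by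
  induction F with
  | nil =>
    intro k
    rcases k with _ | k
    · simp [fk]
    · simp [fk]
  | cons y F ih =>
    intro k
    rcases k with _ | k
    · have h := ih 0
      simp only [fk, derivative_mul, derivative_add, derivative_one, derivative_C, derivative_X,
        List.length_cons, Nat.cast_add, Nat.cast_one, Nat.cast_zero, zero_add, C_add,
        map_natCast, map_one, sub_zero, zero_mul, mul_one, one_mul] at h ⊢
      linear_combination (1 + C y * X) * h
    · have h1 := ih (k + 1)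
      have h0 := ih k
      simp only [fk, derivative_mul, derivative_add, derivative_one, derivative_C, derivative_X,
        List.length_cons, Nat.cast_add, Nat.cast_one, zero_add, C_add, C_sub,
        map_natCast, map_one, zero_mul, mul_one] at h0 h1 ⊢
      linear_combination (1 + C y * X) * h1 + (1 + C y) * h0

theorem opA_E (F : List ℝ) (q' : ℝ) (a k : ℕ) :
    opA (F.length + q') (X ^ a * fk F k)
      = C (1 + (a : ℝ)) * (X ^ a * fk F k) + C (q' + k - a) * (X ^ (a + 1) * fk F k)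
        + C ((k : ℝ) + 1) * (X ^ (a + 1) * fk F (k + 1)) := by
  have h := fk_der F k
  unfold Pool.Agent.H73.TP.opA
  rw [derivative_mul, derivative_X_pow]
  rcases a with _ | a
  · simp only [C_add, C_sub, map_natCast, map_one, Nat.cast_zero, map_zero, pow_zero, zero_mul,
      one_mul, zero_add, pow_one, add_zero, sub_zero] at h ⊢
    linear_combination h
  · simp only [C_add, C_sub, map_natCast, map_one, Nat.cast_add, Nat.cast_one,
      Nat.add_sub_cancel] at h ⊢
    linear_combination X ^ (a + 1) * h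

/-- value of a row -/
noncomputable def VR (p u : ℝ) (v : ℕ → ℝ[X]) : List (ℕ × Cf) → ℝ[X]
  | [] => 0
  | e :: s => C (ev2 p u e.2) * v e.1 + VR p u v s

theorem VR_addR (p u : ℝ) (v : ℕ → ℝ[X]) (a : ℕ) (c : Cf) : ∀ s : List (ℕ × Cf),
    VR p u v (addR a c s) = C (ev2 p u c) * v a + VR p u v s
  | [] => by simp [addR, VR]
  | e :: s => by
    unfold addR
    cases h : Nat.beq a e.1 with
    | true =>
      have h1 : a = e.1 := Nat.eq_of_beq_eq_true h
      rw [cond_true, VR, VR, ev2_add, h1, C_add]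
      ring
    | false =>
      rw [cond_false, VR, VR, VR_addR p u v a c s]
      ring

theorem rw0_code (F : List ℝ) (n : ℕ) : rw0 [] F n = X ^ (n / 8) * fk F (n % 8) := by
  simp [rw0, gp]

theorem VR_rst (p u : ℝ) (F : List ℝ) (i : ℕ) : ∀ s : List (ℕ × Cf), (∀ e ∈ s, e.1 % 8 < 7) →
    VR p u (rw0 [] F) (rst i s)
      = opA ((F.length : ℝ) + (1 + u + p) + (i : ℝ) * (1 + u)) (VR p u (rw0 [] F) s)
  | [], _ => by simp [rst, VR, Pool.Agent.H73.TP.opA]
  | e :: s, h => by
    have ih := VR_rst p u F i s (fun x hx => h x (List.mem_cons_of_mem _ hx))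
    have h7 := h e List.mem_cons_self
    rw [rst, VR_addR, VR_addR, VR_addR, ih, VR, opA_add, opA_C_mul]
    have e0 := opA_E F ((1 + u + p) + (i : ℝ) * (1 + u)) (e.1 / 8) (e.1 % 8)
    rw [← add_assoc] at e0
    rw [rw0_code F e.1, e0, rw0_code F (e.1 + 8), rw0_code F (e.1 + 9)]
    have d1 : (e.1 + 8) / 8 = e.1 / 8 + 1 := by omega
    have d2 : (e.1 + 8) % 8 = e.1 % 8 := by omega
    have d3 : (e.1 + 9) / 8 = e.1 / 8 + 1 := by omega
    have d4 : (e.1 + 9) % 8 = e.1 % 8 + 1 := by omega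
    rw [d1, d2, d3, d4, ev2_sc, ev2_sc, ev2_mul]
    generalize e.1 / 8 = a
    generalize e.1 % 8 = k
    have e5 : ev2 p u [[1 + Int.ofNat i + Int.ofNat k - Int.ofNat a, 1 + Int.ofNat i], [1]]
        = (1 + u + p) + (i : ℝ) * (1 + u) + (k : ℝ) - (a : ℝ) := by
      simp only [ev2, ev1, Int.ofNat_eq_natCast]
      push_cast; ring
    rw [e5]
    simp only [Int.ofNat_eq_natCast]
    push_cast
    simp only [C_add, C_sub, C_mul, map_one, map_natCast]
    ring

/-- all codes of a row with `k < 7` -/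
def kOK : List (ℕ × Cf) → Bool
  | [] => true
  | e :: s => Nat.blt (e.1 % 8) 7 && kOK s

theorem kOK_spec : ∀ s : List (ℕ × Cf), kOK s = true → ∀ e ∈ s, e.1 % 8 < 7
  | [], _, e, he => by simp at he
  | x :: s, h, e, he => by
    simp only [kOK, Bool.and_eq_true] at h
    rcases List.mem_cons.1 he with h1 | h1
    · subst h1
      exact Nat.blt_eq.mp h.1
    · exact kOK_spec s h.2 e h1

theorem VR_rowL (p u : ℝ) (F : List ℝ) : ∀ i : ℕ, (∀ j, j < i → kOK (rowL j) = true) →
    VR p u (rw0 [] F) (rowL i) = rwi F (1 + u + p) (1 + u) i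
  | 0, _ => by simp [rowL, VR, ev2, ev1, rwi, rw0, gp]
  | i + 1, h => by
    rw [rowL, VR_rst p u F i _ (kOK_spec _ (h i (Nat.lt_succ_self i))),
      VR_rowL p u F i (fun j hj => h j (Nat.lt_succ_of_lt hj)), rwi]

theorem kOK_rowL : ∀ j, j < 4 → kOK (rowL j) = true := by
  intro j hj
  interval_cases j <;> decide

/-! ### the wedge -/

theorem S_wd1 (p u : ℝ) (v : ℕ → ℝ[X]) (a : ℕ) (c : Cf) : ∀ σ τ : St,
    S p u v (wd1 a c σ τ) = ev2 p u c • (ExteriorAlgebra.ι ℝ (v a) * S p u v σ) + S p u v τ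
  | [], τ => by simp [wd1, S]
  | e :: σ, τ => by
    rw [wd1, S_addS, S_wd1 p u v a c σ τ, S, W, ev2_mul, mul_add, mul_smul_comm]
    module

theorem S_wd (p u : ℝ) (v : ℕ → ℝ[X]) (σ : St) : ∀ R : List (ℕ × Cf),
    S p u v (wd R σ) = ExteriorAlgebra.ι ℝ (VR p u v R) * S p u v σ
  | [] => by simp [wd, S, VR]
  | e :: s => by
    rw [wd, S_wd1, S_wd p u v σ s, VR, map_add, add_mul, ← smul_eq_C_mul, map_smul,
      smul_mul_assoc]

/-- the product of the rows -/
noncomputable def PR (p u : ℝ) (F : List ℝ) (i : ℕ) : ℕ → Ex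
  | 0 => 1
  | k + 1 => ExteriorAlgebra.ι ℝ (rwi F (1 + u + p) (1 + u) i) * PR p u F (i + 1) k

theorem S_om (p u : ℝ) (F : List ℝ) : ∀ k i : ℕ, i + k ≤ 4 →
    S p u (rw0 [] F) (om i k) = PR p u F i k
  | 0, i, _ => by simp [om, S, PR, ev2, ev1, W]
  | k + 1, i, h => by
    rw [om, S_wd, VR_rowL p u F i (fun j hj => kOK_rowL j (by omega)),
      S_om p u F k (i + 1) (by omega), PR]

/-! ### the functional -/

/-- determinant of the coefficients `κ, κ + 1, ...` -/
noncomputable def Lk (κ : ℕ) : Ex →ₗ[ℝ] ℝ :=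
  ExteriorAlgebra.liftAlternating (R := ℝ) (M := ℝ[X]) (N := ℝ) fun n =>
    (Matrix.detRowAlternating : (Fin n → ℝ) [⋀^Fin n]→ₗ[ℝ] ℝ).compLinearMap
      (LinearMap.pi fun j : Fin n => lcoeff ℝ (κ + j))

theorem Lk_multi (κ n : ℕ) (v : Fin n → ℝ[X]) : Lk κ (ExteriorAlgebra.ιMulti ℝ n v)
    = Matrix.det (Matrix.of fun i j : Fin n => (v i).coeff (κ + j)) := by
  rw [Lk, ExteriorAlgebra.liftAlternating_apply_ιMulti]
  rfl

theorem W_multi (v : ℕ → ℝ[X]) : ∀ l : List ℕ,
    W v l = ExteriorAlgebra.ιMulti ℝ l.length (fun i => v (l.get i))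
  | [] => by
    show (1 : Ex) = ExteriorAlgebra.ιMulti ℝ 0 _
    rw [ExteriorAlgebra.ιMulti_zero_apply]
  | a :: l => by
    rw [W, W_multi v l]
    show _ = ExteriorAlgebra.ιMulti ℝ (l.length + 1) _
    rw [ExteriorAlgebra.ιMulti_succ_apply]
    rfl

theorem Lk_W (κ : ℕ) (v : ℕ → ℝ[X]) (l : List ℕ) : Lk κ (W v l)
    = Matrix.det (Matrix.of fun i j : Fin l.length => (v (l.get i)).coeff (κ + j)) := by
  rw [W_multi, Lk_multi]

theorem PR_multi (p u : ℝ) (F : List ℝ) : ∀ k i : ℕ,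
    PR p u F i k = ExteriorAlgebra.ιMulti ℝ k (fun j => rwi F (1 + u + p) (1 + u) (i + j))
  | 0, i => by rw [PR, ExteriorAlgebra.ιMulti_zero_apply]
  | k + 1, i => by
    rw [PR, PR_multi p u F k (i + 1), ExteriorAlgebra.ιMulti_succ_apply]
    congr 2
    funext j
    show rwi F (1 + u + p) (1 + u) (i + 1 + j) = rwi F (1 + u + p) (1 + u) (i + (j.succ : ℕ))
    rw [Fin.val_succ]
    congr 1; ring

theorem sol_eq (p u : ℝ) (F : List ℝ) (k κ : ℕ) (hk : k ≤ 4) :
    sol F (1 + u + p) (1 + u) k κ = Lk κ (S p u (rw0 [] F) (om 0 k)) := by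
  rw [S_om p u F k 0 (by omega), PR_multi, Lk_multi, sol]
  simp only [zero_add]

end Pool.Agent.H48.O4
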