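import Pool.Agent.H48.O4.Row

/-!
# The row statement of H52.O4 (`RowSt`)
-/

set_option autoImplicit false

open Polynomial

namespace Pool.Agent.H48.O4

open Pool.Agent.H52.O4 (gp fk rw0 rwi sol val sem ev evAux om3 om4)

/-- value of a state under a functional on tuples -/
noncomputable def SL (p u : ℝ) (f : List ℕ → ℝ) : St → ℝ
  | [] => 0
  | e :: σ => ev2 p u e.2.2 * f e.2.1 + SL p u f σ

theorem Lk_S (p u : ℝ) (G F : List ℝ) (κ : ℕ) : ∀ σ : St,
    Lk κ (S p u (rw0 G F) σ) = SL p u (val G F κ) σ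
  | [] => by simp [S, SL]
  | e :: σ => by
    rw [S, SL, map_add, map_smul, Lk_S p u G F κ σ, Lk_W, smul_eq_mul]
    rfl

theorem om_three : om 0 3 =
  [(148480, [0, 8, 9], [[-1, -1], [0]]), (263168, [0, 8, 16], [[1, 4, 5, 2], [3, 8, 5], [3, 4], [1]]),
    (263296, [0, 9, 16], [[1, 3, 2], [2, 3], [1]]), (279552, [0, 8, 17], [[3, 6, 3], [5, 5], [2]]),
    (279680, [0, 9, 17], [[3, 3], [2]]), (295936, [0, 8, 18], [[2, 2], [2]]), (296064, [0, 9, 18], [[2]])] := by decide +kernel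

theorem om_four : om 0 4 =
  [(33702912, [0, 8, 9, 16], [[-7, -24, -27, -10], [-8, -18, -10], [-2, -2], [0]]),
    (35800064, [0, 8, 9, 17], [[-10, -20, -10], [-4, -4], [0]]),
    (35914752, [0, 8, 16, 17], [[-11, -43, -63, -41, -10], [-25, -72, -69, -22], [-18, -34, -16], [-4, -4], [0]]),
    (35914880, [0, 9, 16, 17], [[-11, -32, -31, -10], [-14, -26, -12], [-4, -4], [0]]),
    (37897216, [0, 8, 9, 18], [[-4, -4], [0]]),
    (38011904, [0, 8, 16, 18], [[-10, -32, -34, -12], [-18, -38, -20], [-8, -8], [0]]),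
    (38012032, [0, 9, 16, 18], [[-10, -22, -12], [-8, -8], [0]]),
    (38028288, [0, 8, 17, 18], [[-8, -16, -8], [-8, -8], [0]]), (38028416, [0, 9, 17, 18], [[-8, -8], [0]]),
    (50480128, [0, 8, 9, 24], [[-1, -7, -17, -17, -6], [-3, -15, -23, -11], [-3, -9, -6], [-1, -1], [0]]),
    (50594816, [0, 8, 16, 24],
      [[1, 10, 40, 82, 91, 52, 12], [6, 50, 160, 246, 182, 52], [15, 100, 240, 246, 91], [20, 100, 160, 82], [15, 50, 40],
        [6, 10], [1]]),
    (50594944, [0, 9, 16, 24],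
      [[1, 9, 31, 51, 40, 12], [5, 36, 93, 102, 40], [10, 54, 93, 51], [10, 36, 31], [5, 9], [1]]),
    (50611200, [0, 8, 17, 24],
      [[3, 24, 72, 102, 69, 18], [14, 89, 199, 187, 63], [26, 123, 182, 85], [24, 75, 55], [11, 17], [2]]),
    (50611328, [0, 9, 17, 24], [[3, 21, 51, 51, 18], [11, 57, 91, 45], [15, 51, 40], [9, 15], [2]]),
    (50627584, [0, 8, 18, 24], [[2, 14, 34, 34, 12], [8, 42, 68, 34], [12, 42, 34], [8, 14], [2]]),
    (50627712, [0, 9, 18, 24], [[2, 12, 22, 12], [6, 24, 22], [6, 12], [2]]),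
    (52577280, [0, 8, 9, 25], [[-7, -25, -29, -11], [-9, -21, -12], [-3, -3], [0]]),
    (52691968, [0, 8, 16, 25],
      [[7, 46, 118, 148, 91, 22], [30, 158, 305, 256, 79], [51, 202, 261, 110], [43, 114, 74], [18, 24], [3]]),
    (52692096, [0, 9, 16, 25], [[7, 39, 79, 69, 22], [23, 96, 130, 57], [28, 78, 53], [15, 21], [3]]),
    (52708352, [0, 8, 17, 25], [[21, 96, 162, 120, 33], [62, 215, 244, 91], [68, 159, 91], [33, 39], [6]]),
    (52708480, [0, 9, 17, 25], [[21, 75, 87, 33], [41, 99, 58], [27, 33], [6]]),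
    (52724736, [0, 8, 18, 25], [[14, 50, 58, 22], [32, 78, 46], [24, 30], [6]]),
    (52724864, [0, 9, 18, 25], [[14, 36, 22], [18, 24], [6]]),
    (54674432, [0, 8, 9, 26], [[-12, -24, -12], [-6, -6], [0]]),
    (54789120, [0, 8, 16, 26], [[12, 60, 108, 84, 24], [42, 156, 186, 72], [54, 132, 78], [30, 36], [6]]),
    (54789248, [0, 9, 16, 26], [[12, 48, 60, 24], [30, 78, 48], [24, 30], [6]]),
    (54805504, [0, 8, 17, 26], [[36, 108, 108, 36], [78, 156, 78], [54, 54], [12]]),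
    (54805632, [0, 9, 17, 26], [[36, 72, 36], [42, 42], [12]]),
    (54821888, [0, 8, 18, 26], [[24, 48, 24], [36, 36], [12]]), (54822016, [0, 9, 18, 26], [[24, 24], [12]]),
    (56771584, [0, 8, 9, 27], [[-6, -6], [0]]),
    (56886272, [0, 8, 16, 27], [[6, 24, 30, 12], [18, 48, 30], [18, 24], [6]]),
    (56886400, [0, 9, 16, 27], [[6, 18, 12], [12, 18], [6]]), (56902656, [0, 8, 17, 27], [[18, 36, 18], [30, 30], [12]]),
    (56902784, [0, 9, 17, 27], [[18, 18], [12]]), (56919040, [0, 8, 18, 27], [[12, 12], [12]]),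
    (56919168, [0, 9, 18, 27], [[12]])] := by decide +kernel

theorem sol_three (p u : ℝ) (F : List ℝ) (κ : ℕ) :
    sol F (1 + u + p) (1 + u) 3 κ = sem p u (val [] F κ) om3 := by
  rw [sol_eq p u F 3 κ (by norm_num), Lk_S, om_three]
  simp only [SL, ev2, ev1, sem, om3, List.map_cons, List.map_nil, List.sum_cons, List.sum_nil,
    ev, evAux, Nat.reduceSub, Nat.reduceAdd, if_true, one_ne_zero, if_false, OfNat.ofNat_ne_zero]
  push_cast
  ring

theorem sol_four (p u : ℝ) (F : List ℝ) (κ : ℕ) :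
    sol F (1 + u + p) (1 + u) 4 κ = sem p u (val [] F κ) om4 := by
  rw [sol_eq p u F 4 κ le_rfl, Lk_S, om_four]
  simp only [SL, ev2, ev1, sem, om4, List.map_cons, List.map_nil, List.sum_cons, List.sum_nil,
    ev, evAux, Nat.reduceSub, Nat.reduceAdd, if_true, one_ne_zero, if_false, OfNat.ofNat_ne_zero]
  push_cast
  ring

theorem rowSt : Pool.Agent.H52.O4.RowSt := fun F p u κ => ⟨sol_three p u F κ, sol_four p u F κ⟩

end Pool.Agent.H48.O4
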