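import Pool.Agent.H48.O4.Cf

/-!
# States: integer combinations of alternating tuples, and the operators `X_m`
-/

set_option autoImplicit false

namespace Pool.Agent.H48.O4

/-- A state: list of (key, tuple, coefficient). -/
abbrev St := List (ℕ × List ℕ × Cf)

def pk : List ℕ → ℕ
  | [] => 0
  | a :: l => a + 128 * pk l

def leq : List ℕ → List ℕ → Bool
  | [], [] => true
  | [], _ :: _ => false
  | _ :: _, [] => false
  | a :: l, b :: m => Nat.beq a b && leq l m

def addT (k : ℕ) (l : List ℕ) (c : Cf) : St → St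
  | [] => [(k, l, c)]
  | e :: s =>
    bif Nat.blt k e.1 then (k, l, c) :: e :: s
    else bif Nat.beq k e.1 && leq l e.2.1 then (e.1, e.2.1, add2 c e.2.2) :: s
    else e :: addT k l c s

/-- insertion of `a` in a sorted list, with the parity. -/
def ins (a : ℕ) : List ℕ → Option (Bool × List ℕ)
  | [] => some (false, [a])
  | b :: l => bif Nat.blt a b then some (false, a :: b :: l)
    else bif Nat.beq a b then none
    else match ins a l with
      | none => none
      | some (s, l') => some (!s, b :: l')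

def srt : List ℕ → Option (Bool × List ℕ)
  | [] => some (false, [])
  | a :: l => match srt l with
    | none => none
    | some (s, l') => match ins a l' with
      | none => none
      | some (s', l'') => some (xor s s', l'')

def addS (l : List ℕ) (c : Cf) (σ : St) : St :=
  match srt l with
  | none => σ
  | some (s, l') => addT (pk l') l' (bif s then sc2 (-1) c else c) σ

/-- stay or shift, at the first place -/
def st2 (a : ℕ) : List (List ℕ × ℕ × ℕ) → List (List ℕ × ℕ × ℕ)
  | [] => []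
  | x :: L => (a :: x.1, x.2.1, x.2.2) :: ((a + 8) :: x.1, x.2.1 + 1, x.2.2) :: st2 a L

def st1 (a : ℕ) : List (List ℕ × ℕ × ℕ) → List (List ℕ × ℕ × ℕ)
  | [] => []
  | x :: L => ((a - 1) :: x.1, x.2.1, x.2.2) :: st1 a L

def st3 (a : ℕ) : List (List ℕ × ℕ × ℕ) → List (List ℕ × ℕ × ℕ)
  | [] => []
  | x :: L => (a :: x.1, x.2.1, x.2.2) :: ((a + 8) :: x.1, x.2.1 + 1, x.2.2) ::
      ((a - 1) :: x.1, x.2.1, x.2.2 + 1) :: st3 a L

def allc : List ℕ → List (List ℕ × ℕ × ℕ)
  | [] => [([], 0, 0)]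
  | a :: l => bif Nat.beq (a % 8) 0 then st2 a (allc l) else st3 a (allc l)

def pos : List ℕ → List (List ℕ × ℕ × ℕ)
  | [] => []
  | a :: l => bif Nat.beq (a % 8) 0 then st2 a (pos l) else st1 a (allc l) ++ st2 a (pos l)

def xt (m : ℕ) (c : Cf) : List (List ℕ × ℕ × ℕ) → St → St
  | [], σ => σ
  | x :: L, σ =>
    bif Nat.ble x.2.1 m && Nat.ble m (x.2.1 + x.2.2) then
      addS x.1 (sc2 (Int.ofNat (Nat.choose x.2.2 (m - x.2.1))) c) (xt m c L σ)
    else xt m c L σ

/-- The operator `X_m`. -/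
def opX (m : ℕ) : St → St
  | [] => []
  | e :: σ => xt m e.2.2 (pos e.2.1) (opX m σ)

/-- subtraction of a state -/
def subS : St → St → St
  | σ, [] => σ
  | σ, e :: τ => addT e.1 e.2.1 (sc2 (-1) e.2.2) (subS σ τ)

def zst : St → Bool
  | [] => true
  | e :: σ => z2 e.2.2 && zst σ

/-- rows: lists of (code, coefficient) -/
def addR (a : ℕ) (c : Cf) : List (ℕ × Cf) → List (ℕ × Cf)
  | [] => [(a, c)]
  | e :: s => bif Nat.beq a e.1 then (e.1, add2 c e.2) :: s else e :: addR a c s

/-- one step of the rows: `A_(m+q')`, `q' = (1 + i)(1 + u) + p`. -/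
def rst (i : ℕ) : List (ℕ × Cf) → List (ℕ × Cf)
  | [] => []
  | e :: s =>
    addR e.1 (sc2 (1 + Int.ofNat (e.1 / 8)) e.2)
      (addR (e.1 + 8) (mul2 [[1 + Int.ofNat i + Int.ofNat (e.1 % 8) - Int.ofNat (e.1 / 8),
        1 + Int.ofNat i], [1]] e.2)
        (addR (e.1 + 9) (sc2 (1 + Int.ofNat (e.1 % 8)) e.2) (rst i s)))

def rowL : ℕ → List (ℕ × Cf)
  | 0 => [(0, [[1]])]
  | i + 1 => rst i (rowL i)

def wd1 (a : ℕ) (c : Cf) : St → St → St
  | [], τ => τ
  | e :: σ, τ => addS (a :: e.2.1) (mul2 c e.2.2) (wd1 a c σ τ)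

def wd (R : List (ℕ × Cf)) (σ : St) : St :=
  match R with
  | [] => []
  | e :: s => wd1 e.1 e.2 σ (wd s σ)

/-- the wedge of the rows `i, i + 1, .., i + k - 1` -/
def om (i : ℕ) : ℕ → St
  | 0 => [(0, [], [[1]])]
  | k + 1 => wd (rowL i) (om (i + 1) k)

end Pool.Agent.H48.O4
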